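import Pool.Agent.Helper58.CP.Stmts

/-!
# Layout of a triangulation from radii (row LAY)
-/

namespace QD79

open CP Finset

noncomputable section

/-- the unit complex number with a given argument -/
def ee (a : Real.Angle) : ℂ := (a.toCircle : ℂ)

theorem ee_add (a b : Real.Angle) : ee (a + b) = ee a * ee b := by
  unfold ee
  rw [Real.Angle.toCircle_add, Circle.coe_mul]

theorem ee_coe (x : ℝ) : ee (x : Real.Angle) = Complex.exp ((x : ℂ) * Complex.I) := by
  unfold ee
  rw [Real.Angle.toCircle_coe, Circle.coe_exp]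

theorem ee_norm (a : Real.Angle) : ‖ee a‖ = 1 := Circle.norm_coe _

theorem ee_pi : ee (Real.pi : Real.Angle) = -1 := by
  rw [ee_coe, Complex.exp_pi_mul_I]

section

variable {D V F : Type} [Fintype D] [Fintype V] [Fintype F]

theorem v1_eq (m : LM D V F) (d : D) : m.v1 d = m.vt (m.opp d) := m.vt_rot (m.opp d)

theorem v1_opp (m : LM D V F) (d : D) : m.v1 (m.opp d) = m.vt d := by
  rw [v1_eq, m.opp_opp]

theorem fc_face' (m : LM D V F) (d : D) : m.fc (m.face d) = m.fc d := m.fc_face d

theorem face_ne (m : LM D V F) (hT : m.Tri) (d : D) : m.face d ≠ d := by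
  intro h
  apply hT.noloop d
  rw [← v1_eq]
  unfold LM.v1
  rw [h]

theorem face2_ne (m : LM D V F) (hT : m.Tri) (d : D) : m.face (m.face d) ≠ d := by
  intro h
  have h3 := hT.f3 d
  rw [h] at h3
  exact face_ne m hT d h3

theorem fib_eq [DecidableEq D] [DecidableEq F] (m : LM D V F) (hT : m.Tri) (d : D) :
    (Finset.univ.filter (fun x => m.fc x = m.fc d)) = {d, m.face d, m.face (m.face d)} := by
  ext x
  simp only [Finset.mem_filter, Finset.mem_univ, true_and, Finset.mem_insert,
    Finset.mem_singleton]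
  constructor
  · intro h
    exact hT.fib d x h
  · rintro (h | h | h)
    · rw [h]
    · rw [h, fc_face']
    · rw [h, fc_face', fc_face']

theorem sum_fib [DecidableEq F] {A : Type} [AddCommGroup A] (m : LM D V F) (hT : m.Tri)
    (d : D) (f : D → A) :
    ∑ x with m.fc x = m.fc d, f x = f d + f (m.face d) + f (m.face (m.face d)) := by
  classical
  have h1 : (Finset.univ.filter (fun x => m.fc x = m.fc d))
      = {d, m.face d, m.face (m.face d)} := by
    ext x
    simp only [Finset.mem_filter, Finset.mem_univ, true_and, Finset.mem_insert,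
      Finset.mem_singleton]
    constructor
    · intro h
      exact hT.fib d x h
    · rintro (h | h | h)
      · rw [h]
      · rw [h, fc_face']
      · rw [h, fc_face', fc_face']
  rw [h1, Finset.sum_insert, Finset.sum_insert, Finset.sum_singleton, add_assoc]
  · rw [Finset.mem_singleton]
    exact (face_ne m hT (m.face d)).symm
  · rw [Finset.mem_insert, Finset.mem_singleton]
    rintro (h | h)
    · exact face_ne m hT d h.symm
    · exact face2_ne m hT d h.symm

theorem v1_face (m : LM D V F) (d : D) : m.v1 (m.face d) = m.v2 d := rfl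

theorem v1_face2 (m : LM D V F) (hT : m.Tri) (d : D) : m.v1 (m.face (m.face d)) = m.vt d := by
  unfold LM.v1
  rw [hT.f3]

theorem v2_face (m : LM D V F) (hT : m.Tri) (d : D) : m.v2 (m.face d) = m.vt d := by
  unfold LM.v2
  rw [hT.f3]

theorem v2_face2 (m : LM D V F) (hT : m.Tri) (d : D) : m.v2 (m.face (m.face d)) = m.v1 d := by
  unfold LM.v2 LM.v1
  rw [hT.f3]

end

theorem st_LAY (hDIR : ST_DIR) (hEXA : ST_EXA) (hCLO : ST_CLO) : ST_LAY := by
  classical
  intro D V F _ _ _ m o R hT hR
  obtain ⟨ω, hopp, hface⟩ := hDIR D V F m o R hT hR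
  let f : D → ℂ := fun d => ((R (m.vt d) + R (m.v1 d) : ℝ) : ℂ) * ee (ω d)
  have hf : ∀ d, f d = ((R (m.vt d) + R (m.v1 d) : ℝ) : ℂ) * ee (ω d) := fun d => rfl
  have hanti : ∀ d, f (m.opp d) = - f d := by
    intro d
    rw [hf, hf, hopp, ee_add, ee_pi, v1_opp, ← v1_eq, add_comm (R (m.v1 d))]
    ring
  have hfacefc : ∀ d, m.fc d ≠ m.fc o → m.fc (m.face d) ≠ m.fc o := by
    intro d hd
    rwa [fc_face']
  have hsum : ∀ φ, φ ≠ m.fc o → ∑ d with m.fc d = φ, f d = 0 := by
    intro φ hφ
    obtain ⟨d, rfl⟩ := m.fc_surj φ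
    rw [sum_fib m hT d f, hf, hf, hf]
    have h1 := hface d hφ
    have h2 := hface (m.face d) (hfacefc d hφ)
    rw [h1] at h2
    rw [h1, h2]
    have hx := hR.pos (m.vt d)
    have hy := hR.pos (m.v1 d)
    have hz := hR.pos (m.v2 d)
    have hc := hCLO _ _ _ hx hy hz
    have a1 : m.angd R (m.face d) = ang (R (m.v1 d)) (R (m.v2 d)) (R (m.vt d)) := by
      unfold LM.angd
      rw [v1_face, v2_face m hT]
      rfl
    have a2 : m.angd R (m.face (m.face d)) = ang (R (m.v2 d)) (R (m.vt d)) (R (m.v1 d)) := by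
      unfold LM.angd
      rw [v1_face2 m hT, v2_face2 m hT]
      rfl
    have e1 : m.vt (m.face d) = m.v1 d := rfl
    have e2 : m.vt (m.face (m.face d)) = m.v2 d := rfl
    rw [e1, e2, v1_face, v1_face2 m hT, a1, a2]
    set p := ang (R (m.v1 d)) (R (m.v2 d)) (R (m.vt d)) with hp
    set q := ang (R (m.v2 d)) (R (m.vt d)) (R (m.v1 d)) with hq
    have e3 : ee (ω d + ((Real.pi - p : ℝ) : Real.Angle))
        = ee (ω d) * Complex.exp ((Real.pi - p : ℝ) * Complex.I) := by
      rw [ee_add, ee_coe]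
    have e4 : ee (ω d + ((Real.pi - p : ℝ) : Real.Angle) + ((Real.pi - q : ℝ) : Real.Angle))
        = ee (ω d) * Complex.exp ((2 * Real.pi - p - q : ℝ) * Complex.I) := by
      rw [ee_add, ee_add, ee_coe, ee_coe, mul_assoc, ← Complex.exp_add]
      congr 2
      push_cast
      ring
    rw [e3, e4]
    linear_combination (ee (ω d)) * hc
  obtain ⟨z, hz⟩ := hEXA D V F m ℂ f o hanti hsum
  refine ⟨z, ?_, ?_⟩
  · intro d
    rw [← hz, hf, norm_mul, ee_norm, mul_one, Complex.norm_real, Real.norm_eq_abs, v1_eq,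
      abs_of_pos (add_pos (hR.pos _) (hR.pos _))]
  · intro d hd
    have h1 : z (m.v1 d) - z (m.vt d) = f d := by rw [hz, v1_eq]
    have h2 : z (m.v2 d) - z (m.vt d) = - f (m.face (m.face d)) := by
      rw [hz, ← v1_eq, v1_face2 m hT]
      have e2 : m.vt (m.face (m.face d)) = m.v2 d := rfl
      rw [e2]
      ring
    have h3 := hface (m.face (m.face d)) (hfacefc _ (hfacefc _ hd))
    rw [hT.f3] at h3
    have e2 : m.vt (m.face (m.face d)) = m.v2 d := rfl
    rw [h1, h2, hf, hf, e2, v1_face2 m hT, h3, ee_add, ee_coe]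
    have e5 : Complex.exp (((Real.pi - m.angd R d : ℝ) : ℂ) * Complex.I)
        * Complex.exp ((m.angd R d : ℝ) * Complex.I) = -1 := by
      rw [← Complex.exp_add, ← Complex.exp_pi_mul_I]
      congr 1
      push_cast
      ring
    push_cast at e5 ⊢
    linear_combination (-(((R (m.vt d) : ℂ) + R (m.v1 d)) * ee (ω (m.face (m.face d)))
      * ((R (m.vt d) : ℂ) + R (m.v2 d)))) * e5

end

end QD79
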